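import Mathlib

set_option autoImplicit false

namespace Pool.Agent.Results.MP_8aa8ea_co.NotSelfPolar

open RealInnerProductSpace

/-- The Euclidean plane. -/
abbrev E := EuclideanSpace ℝ (Fin 2)

/-- Combinatorial configuration `(n_q)`; `I i j` means point `i` lies on line `j`. -/
def IsConfig (n q : ℕ) (I : Fin n → Fin n → Prop) : Prop :=
  (∀ j, {i | I i j}.ncard = q) ∧ (∀ i, {j | I i j}.ncard = q) ∧
  ∀ i i' j j', i ≠ i' → I i j → I i' j → I i j' → I i' j' → j = j'

/-- A straight line of the plane. -/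
def IsLine (l : Set E) : Prop := ∃ a b c : ℝ, (a ≠ 0 ∨ b ≠ 0) ∧ l = {x | a * x 0 + b * x 1 = c}

/-- Points `p` and straight lines `L` realize `I`, with ordinary incidence. -/
def Realizes {n : ℕ} (I : Fin n → Fin n → Prop) (p : Fin n → E) (L : Fin n → Set E) : Prop :=
  Function.Injective p ∧ Function.Injective L ∧ (∀ j, IsLine (L j)) ∧ ∀ i j, p i ∈ L j ↔ I i j

/-- A selfduality: a permutation of points ⊕ lines swapping the two kinds, preserving incidence. -/
def IsSelfDuality {n : ℕ} (I : Fin n → Fin n → Prop) (d : Equiv.Perm (Fin n ⊕ Fin n)) : Prop :=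
  ∃ s t : Fin n → Fin n, (∀ i, d (Sum.inl i) = Sum.inr (s i)) ∧
    (∀ j, d (Sum.inr j) = Sum.inl (t j)) ∧ ∀ i j, I i j ↔ I (t j) (s i)

/-- The polar of the point `x` in the circle with centre `c` and radius `r`. -/
def polar (c : E) (r : ℝ) (x : E) : Set E := {y | ⟪y - c, x - c⟫ = r ^ 2}

/-- The polar of `(p, L)` in some circle is defined and congruent to `(p, L)`: an isometry carries
the poles of the lines onto the points and the polars of the points onto the lines. -/
def CongruentToPolar {n : ℕ} (p : Fin n → E) (L : Fin n → Set E) : Prop :=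
  ∃ (c : E) (r : ℝ), 0 < r ∧ (∀ i, p i ≠ c) ∧ (∀ j, c ∉ L j) ∧
    ∃ pole : Fin n → E, (∀ j, pole j ≠ c ∧ polar c r (pole j) = L j) ∧
      ∃ g : E ≃ᵢ E, g '' Set.range pole = Set.range p ∧
        Set.range (fun i => g '' polar c r (p i)) = Set.range L

def ib (i j : Fin 11) : Bool := Nat.testBit 1828216322293329255557081516736550926 (11 * i.val + j.val)
def I (i j : Fin 11) : Prop := ib i j = true
instance (i j : Fin 11) : Decidable (I i j) := inferInstanceAs (Decidable (ib i j = true))

theorem sym : ∀ i j, ib i j = ib j i := by decide +kernel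

theorem config : IsConfig 11 3 I := by
  refine ⟨fun j => ?_, fun i => ?_, by decide +kernel⟩
  · have : ∀ j, (Finset.univ.filter (fun i => I i j)).card = 3 := by decide +kernel
    rw [← this j, ← Set.ncard_coe_finset]; congr 1; ext; simp
  · have : ∀ i, (Finset.univ.filter (fun j => I i j)).card = 3 := by decide +kernel
    rw [← this i, ← Set.ncard_coe_finset]; congr 1; ext; simp

def px : Fin 11 → ℤ := ![0, -4, 0, 2, 12, 0, -6, -3, -6, -6, -12]
def py : Fin 11 → ℤ := ![3, 2, 2, 2, 6, -18, 6, -3, 0, -6, 6]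
def la : Fin 11 → ℤ := ![0, -1, 1, 1, -5, 1, 1, 0, 2, -1, -1]
def lb : Fin 11 → ℤ := ![3, 4, 0, 2, -1, -3, -1, 1, 1, 0, -1]
def lc : Fin 11 → ℤ := ![6, 12, 0, 6, 18, -6, 0, 6, -18, 6, 6]

theorem r1 : ∀ i j, la j * px i + lb j * py i = lc j ↔ I i j := by decide +kernel
theorem r2 : ∀ j, la j ≠ 0 ∨ lb j ≠ 0 := by decide +kernel
theorem r3 : ∀ i k : Fin 11, (∀ j, I i j ↔ I k j) → i = k := by decide +kernel
theorem r4 : ∀ i k : Fin 11, (∀ j, I j i ↔ I j k) → i = k := by decide +kernel

theorem real : ∃ p L, Realizes I p L := by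
  let p : Fin 11 → E := fun i => !₂[(px i : ℝ), (py i : ℝ)]
  let L : Fin 11 → Set E := fun j => {x | (la j : ℝ) * x 0 + (lb j : ℝ) * x 1 = (lc j : ℝ)}
  have h : ∀ i j, p i ∈ L j ↔ I i j := by
    intro i j
    rw [← r1]
    simp only [p, L, Set.mem_setOf_eq]
    simp
    norm_cast
  refine ⟨p, L, fun i k e => r3 i k fun j => ?_, fun i k e => r4 i k fun j => ?_, fun j => ?_, h⟩
  · rw [← h, ← h, e]
  · rw [← h, ← h, e]
  · refine ⟨la j, lb j, lc j, ?_, rfl⟩
    exact_mod_cast r2 j

theorem rank : IsLeast {m | ∃ d, IsSelfDuality I d ∧ orderOf d = m} 2 := by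
  constructor
  · refine ⟨Equiv.sumComm _ _, ⟨id, id, fun _ => rfl, fun _ => rfl, fun i j => ?_⟩, ?_⟩
    · simp only [I, id, sym i j]
    · apply orderOf_eq_prime
      · ext x; cases x <;> rfl
      · intro h
        have := Equiv.congr_fun h (Sum.inl 0)
        simp at this
  · rintro m ⟨d, ⟨s, t, h1, -, -⟩, rfl⟩
    have h0 := orderOf_pos d
    have h2 : orderOf d ≠ 1 := by
      intro h
      rw [orderOf_eq_one_iff] at h
      have := h1 0
      rw [h] at this
      simp at this
    omega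

abbrev V := Bool × Fin 11

def okb (x : V) (y : Fin 11) (L : List (V × Fin 11)) : Bool :=
  L.all (fun p => if x.1 = p.1.1 then (p.2 != y || p.1.2 == x.2) else ib p.1.2 x.2 == ib y p.2)

def srch : List V → List (V × Fin 11) → Bool
  | [], L => L.all (fun p => p.1.2 == p.2)
  | x :: r, L => (List.finRange 11).all (fun y => !okb x y L || srch r ((x, y) :: L))

theorem k2 : srch [(false, 10), (true, 10), (true, 8), (false, 8), (true, 9), (false, 9), (false, 6), (true, 7), (false, 7), (true, 6), (false, 5), (true, 4), (false, 1), (true, 0), (false, 3), (true, 3), (false, 4), (true, 5), (true, 1), (false, 2), (true, 2), (false, 0)] [] = true := by decide +kernel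

theorem sound (f : V → Fin 11) (h1 : ∀ b i k, f (b, i) = f (b, k) → i = k)
    (h2 : ∀ x z : V, x.1 ≠ z.1 → ib z.2 x.2 = ib (f x) (f z)) :
    ∀ (r : List V) (L : List (V × Fin 11)), (∀ p ∈ L, p.2 = f p.1) → srch r L = true →
    (∀ p ∈ L, f p.1 = p.1.2) ∧ ∀ x ∈ r, f x = x.2 := by
  intro r
  induction r with
  | nil =>
    intro L hL h
    rw [srch, List.all_eq_true] at h
    refine ⟨fun p hp => ?_, by simp⟩
    have := h p hp
    rw [← hL p hp]; exact (beq_iff_eq.1 this).symm
  | cons x r ih =>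
    intro L hL h
    rw [srch, List.all_eq_true] at h
    have h3 := h (f x) (List.mem_finRange _)
    have h4 : okb x (f x) L = true := by
      unfold okb
      rw [List.all_eq_true]
      intro p hp
      rw [hL p hp]
      split_ifs with e
      · by_cases e2 : f p.1 = f x
        · have : f (x.1, p.1.2) = f (x.1, x.2) := by
            have e3 : (x.1, p.1.2) = p.1 := by rw [e]
            rw [e3]; exact e2
          simp [h1 _ _ _ this]
        · simp [e2]
      · simp [h2 x p.1 e]
    rw [h4] at h3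
    simp only [Bool.not_true, Bool.false_or] at h3
    have h5 := ih ((x, f x) :: L) (by
      intro p hp
      rcases List.mem_cons.1 hp with rfl | hp
      · rfl
      · exact hL p hp) h3
    refine ⟨fun p hp => h5.1 p (List.mem_cons_of_mem _ hp), fun z hz => ?_⟩
    rcases List.mem_cons.1 hz with rfl | hz
    · exact h5.1 (z, f z) List.mem_cons_self
    · exact h5.2 z hz

theorem uniq (s t : Fin 11 → Fin 11) (hs : Function.Injective s) (ht : Function.Injective t)
    (h : ∀ i j, I i j ↔ I (t j) (s i)) : ∀ j, t j = j := by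
  have := (sound (fun x => if x.1 then t x.2 else s x.2)
    (by
      intro b i k e
      cases b
      · exact hs e
      · exact ht e)
    (by
      rintro ⟨a, i⟩ ⟨b, k⟩ e
      cases a <;> cases b
      · exact absurd rfl e
      · have := h i k
        simp only [I] at this
        show ib k i = ib (s i) (t k)
        rw [sym k i, sym (s i) (t k)]; exact Bool.eq_iff_iff.2 this
      · have := h k i
        simp only [I] at this
        show ib k i = ib (t i) (s k)
        exact Bool.eq_iff_iff.2 this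
      · exact absurd rfl e) _ [] (by simp) k2).2
  intro j
  have hj : ∀ j : Fin 11, ((true, j) : V) ∈ ([(false, 10), (true, 10), (true, 8), (false, 8), (true, 9), (false, 9), (false, 6), (true, 7), (false, 7), (true, 6), (false, 5), (true, 4), (false, 1), (true, 0), (false, 3), (true, 3), (false, 4), (true, 5), (true, 1), (false, 2), (true, 2), (false, 0)] : List V) := by decide
  exact this _ (hj j)

theorem prop (f1 f2 f3 g1 g2 g3 u1 u2 v1 v2 y1 y2 z1 z2 : ℝ)
    (a : f1 * u1 + f2 * u2 + f3 = 0) (b : f1 * v1 + f2 * v2 + f3 = 0)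
    (c : g1 * u1 + g2 * u2 + g3 = 0) (d : g1 * v1 + g2 * v2 + g3 = 0) (ne : u1 ≠ v1 ∨ u2 ≠ v2) :
    (f1 * y1 + f2 * y2 + f3) * (g1 * z1 + g2 * z2 + g3) =
      (f1 * z1 + f2 * z2 + f3) * (g1 * y1 + g2 * y2 + g3) := by
  have h : f1 * g2 - f2 * g1 = 0 := by
    rcases ne with ne | ne
    · apply mul_right_cancel₀ (sub_ne_zero.2 ne)
      linear_combination g2 * (a - b) - f2 * (c - d)
    · apply mul_right_cancel₀ (sub_ne_zero.2 ne)
      linear_combination f1 * (c - d) - g1 * (a - b)
  have e1 : f3 = -(f1 * u1 + f2 * u2) := by linarith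
  have e2 : g3 = -(g1 * u1 + g2 * u2) := by linarith
  subst e1 e2
  linear_combination ((y1 - u1) * (z2 - u2) - (y2 - u2) * (z1 - u1)) * h

theorem aff (g : E ≃ᵢ E) : ∃ a b c d e f : ℝ, ∀ y : E,
    g y 0 = a * y 0 + b * y 1 + c ∧ g y 1 = d * y 0 + e * y 1 + f := by
  let G := g.toRealAffineIsometryEquiv
  let A := G.linearIsometryEquiv
  have h : ∀ y : E, g y = y 0 • A !₂[1, 0] + y 1 • A !₂[0, 1] + g 0 := by
    intro y
    have h1 : G (y +ᵥ (0 : E)) = A y +ᵥ G 0 := G.map_vadd 0 y
    have h2 : y = y 0 • (!₂[1, 0] : E) + y 1 • (!₂[0, 1] : E) := by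
      ext i; fin_cases i <;> simp
    have h3 : A y = y 0 • A !₂[1, 0] + y 1 • A !₂[0, 1] := by
      conv_lhs => rw [h2]
      rw [map_add, map_smul, map_smul]
    simp only [vadd_eq_add, add_zero] at h1
    rw [← h3]; exact h1
  refine ⟨A !₂[1, 0] 0, A !₂[0, 1] 0, g 0 0, A !₂[1, 0] 1, A !₂[0, 1] 1, g 0 1, fun y => ?_⟩
  rw [h y]
  simp only [PiLp.add_apply, PiLp.smul_apply, smul_eq_mul]
  constructor <;> ring

theorem alg (x y : Fin 11 → ℝ) (a b c d e f k l m : ℝ) (B : Fin 11 → Fin 11 → ℝ)
    (hB : ∀ i j, B i j = x i * (a * x j + b * y j + c) + y i * (d * x j + e * y j + f) +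
      (k * x j + l * y j + m))
    (h : ∀ i j, B i j = 0 ↔ I i j) : False := by
  have ne : ∀ i j : Fin 11, i ≠ j → x i ≠ x j ∨ y i ≠ y j := by
    intro i j hij
    by_contra hc
    push Not at hc
    apply hij
    apply r3
    intro w
    rw [← h, ← h, hB, hB, hc.1, hc.2]
  have Ex : ∀ w u v : Fin 11, u ≠ v → I w u → I w v → I u w → I v w → ∀ p q,
      B w p * B q w = B w q * B p w := by
    intro w u v huv a1 a2 a3 a4 p q
    rw [← h, hB] at a1 a2 a3 a4
    have := prop (x w * a + y w * d + k) (x w * b + y w * e + l) (x w * c + y w * f + m)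
      (a * x w + b * y w + c) (d * x w + e * y w + f) (k * x w + l * y w + m)
      (x u) (y u) (x v) (y v) (x p) (y p) (x q) (y q) (by linear_combination a1)
      (by linear_combination a2) (by linear_combination a3) (by linear_combination a4) (ne u v huv)
    rw [hB, hB, hB, hB]
    linear_combination this
  have nz : ∀ i j, ¬ I i j → B i j ≠ 0 := fun i j hn e => hn ((h i j).1 e)
  have z : ∀ i j, I i j → B i j = 0 := fun i j hn => (h i j).2 hn
  have s6 : ∀ p, B 6 p = B p 6 := by
    intro p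
    apply mul_right_cancel₀ (nz 6 6 (by decide))
    rw [Ex 6 3 7 (by decide) (by decide) (by decide) (by decide) (by decide) p 6]; ring
  have s1 : ∀ p, B 1 p = B p 1 := by
    intro p
    apply mul_right_cancel₀ (nz 6 1 (by decide))
    rw [Ex 1 0 4 (by decide) (by decide) (by decide) (by decide) (by decide) p 6, s6]; ring
  have s2 : ∀ p, B 2 p = B p 2 := by
    intro p
    apply mul_right_cancel₀ (nz 6 2 (by decide))
    rw [Ex 2 0 5 (by decide) (by decide) (by decide) (by decide) (by decide) p 6, s6]; ring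
  obtain ⟨D, hD⟩ : ∃ D, D = x 1 * (y 2 - y 3) - y 1 * (x 2 - x 3) + (x 2 * y 3 - x 3 * y 2) :=
    ⟨_, rfl⟩
  have D0 : D = 0 := by
    apply mul_right_cancel₀ (nz 0 0 (by decide))
    have a1 := z 0 1 (by decide)
    have a2 := z 0 2 (by decide)
    have a3 := z 0 3 (by decide)
    rw [hB] at a1 a2 a3
    rw [hD, hB]
    linear_combination
      (x 0 * (y 2 - y 3) - y 0 * (x 2 - x 3) + (x 2 * y 3 - x 3 * y 2)) * a1 +
      (x 1 * (y 0 - y 3) - y 1 * (x 0 - x 3) + (x 0 * y 3 - x 3 * y 0)) * a2 +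
      (x 1 * (y 2 - y 0) - y 1 * (x 2 - x 0) + (x 2 * y 0 - x 0 * y 2)) * a3
  have G : B 1 1 * (B 2 2 * B 3 3 - B 2 3 * B 3 2) - B 1 2 * (B 2 1 * B 3 3 - B 2 3 * B 3 1) +
      B 1 3 * (B 2 1 * B 3 2 - B 2 2 * B 3 1) =
      D ^ 2 * (a * (e * m - f * l) - b * (d * m - f * k) + c * (d * l - e * k)) := by
    simp only [hB, hD]; ring
  rw [z 1 1 (by decide), z 2 2 (by decide), z 3 3 (by decide), D0, ← s1 2, ← s1 3, ← s2 3] at G
  have : B 1 2 * B 1 3 * B 2 3 = 0 := by linear_combination G / 2
  exact mul_ne_zero (mul_ne_zero (nz 1 2 (by decide)) (nz 1 3 (by decide))) (nz 2 3 (by decide)) this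

/-- A geometric `(11_3)` configuration of rank 2 with no realization congruent to its polar. -/
theorem result : ∃ (n q : ℕ) (I : Fin n → Fin n → Prop), IsConfig n q I ∧ (∃ p L, Realizes I p L) ∧
    IsLeast {m | ∃ d, IsSelfDuality I d ∧ orderOf d = m} 2 ∧
    ∀ p L, Realizes I p L → ¬ CongruentToPolar p L := by
  refine ⟨11, 3, I, config, real, rank, ?_⟩
  rintro p L ⟨hp, hL, -, hI⟩ ⟨c, r, -, -, -, pole, hpole, g, hg1, hg2⟩
  have e1 : ∀ j, ∃ k, p k = g (pole j) := fun j => by
    have : g (pole j) ∈ Set.range p := hg1 ▸ ⟨_, ⟨j, rfl⟩, rfl⟩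
    exact this
  have e2 : ∀ i, ∃ j, L j = g '' polar c r (p i) := fun i => by
    have : g '' polar c r (p i) ∈ Set.range L := hg2 ▸ ⟨i, rfl⟩
    exact this
  choose t ht using e1
  choose s hs using e2
  have ti : Function.Injective t := by
    intro j k e
    have : pole j = pole k := g.injective (by rw [← ht, ← ht, e])
    apply hL
    rw [← (hpole j).2, ← (hpole k).2, this]
  have si : Function.Injective s := by
    rw [Finite.injective_iff_surjective]
    intro j
    have : L j ∈ Set.range (fun i => g '' polar c r (p i)) := hg2 ▸ ⟨j, rfl⟩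
    obtain ⟨i, hi⟩ := this
    exact ⟨i, hL ((hs i).trans hi)⟩
  have key : ∀ j, t j = j := by
    apply uniq s t si ti
    intro i j
    rw [← hI, ← hI, hs, ht, ← (hpole j).2, g.injective.mem_set_image]
    simp only [polar, Set.mem_setOf_eq]
    rw [real_inner_comm]
  obtain ⟨a, b, k, d, e, f, h⟩ := aff g.symm
  have hq : ∀ j, pole j = g.symm (p j) := by
    intro j
    have := ht j
    rw [key] at this
    rw [this]; simp
  refine alg (fun i => p i 0) (fun i => p i 1) a b (k - c 0) d e (f - c 1)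
    (-(c 0 * a + c 1 * d)) (-(c 0 * b + c 1 * e)) (-(c 0 * (k - c 0) + c 1 * (f - c 1)) - r ^ 2)
    (fun i j => ⟪p i - c, pole j - c⟫ - r ^ 2) (fun i j => ?_) (fun i j => ?_)
  · simp only [EuclideanSpace.inner_eq_star_dotProduct, dotProduct, Fin.sum_univ_two]
    simp [hq, (h _).1, (h _).2]
    ring
  · rw [← hI, ← (hpole j).2, sub_eq_zero]; rfl

end Pool.Agent.Results.MP_8aa8ea_co.NotSelfPolar
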